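import Mathlib

namespace Pool.Agent.Results.MP_207c40_pr.GoldenNo

open MeasureTheory ProbabilityTheory Filter Topology
open scoped ENNReal

/-- `P` is a stochastic matrix and `π` a stationary probability vector for it. -/
def IsChain {S : Type} [Fintype S] (π : S → ℝ) (P : Matrix S S ℝ) : Prop :=
  (∀ i, 0 ≤ π i) ∧ ∑ i, π i = 1 ∧ (∀ i j, 0 ≤ P i j) ∧ (∀ i, ∑ j, P i j = 1) ∧
    ∀ j, ∑ i, π i * P i j = π j

/-- Irreducibility. -/
def Irred {S : Type} [Fintype S] [DecidableEq S] (P : Matrix S S ℝ) : Prop :=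
  ∀ i j, ∃ n : ℕ, 0 < (P ^ n) i j

/-- Aperiodicity: the possible return times to each state have no common divisor but 1. -/
def Aper {S : Type} [Fintype S] [DecidableEq S] (P : Matrix S S ℝ) : Prop :=
  ∀ i, ∀ d : ℕ, (∀ n : ℕ, 0 < n → 0 < (P ^ n) i i → d ∣ n) → d = 1

/-- Probability of following the path `w` when started at `w 0`. -/
def pathW {S : Type} (P : Matrix S S ℝ) {n : ℕ} (w : Fin (n + 1) → S) : ℝ :=
  ∏ i : Fin n, P (w i.castSucc) (w i.succ)

/-- Probability of the word `w` in the stationary chain. -/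
def wordProb {S : Type} (π : S → ℝ) (P : Matrix S S ℝ) {n : ℕ} (w : Fin (n + 1) → S) : ℝ :=
  π (w 0) * pathW P w

/-- Exponential return times: for some state `s`, `P(τ_s > n | M_0 = s) ≤ C exp (-c n)`. -/
def ExpReturn {S : Type} [Fintype S] [DecidableEq S] (P : Matrix S S ℝ) : Prop :=
  ∃ (s : S) (C c : ℝ), 0 < C ∧ 0 < c ∧ ∀ n : ℕ,
    ∑ w ∈ (Finset.univ : Finset (Fin (n + 1) → S)).filter
      (fun w => w 0 = s ∧ ∀ i : Fin n, w i.succ ≠ s), pathW P w ≤ C * Real.exp (-c * n)

/-- The entropy (rate) of the stationary chain is `h`. -/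
def HasEntropy {S : Type} [Fintype S] (π : S → ℝ) (P : Matrix S S ℝ) (h : ℝ) : Prop :=
  Tendsto (fun n : ℕ => (∑ w : Fin (n + 1) → S, Real.negMulLog (wordProb π P w)) / (n + 1))
    atTop (𝓝 h)

/-- Shannon entropy `E[-log ν{Y}]` of a law `ν` (infinite if `ν` is not purely atomic). -/
noncomputable def shannon {A : Type} [MeasurableSpace A] (ν : Measure A) : ℝ≥0∞ :=
  ∫⁻ a, (if ν {a} = 0 then ⊤ else ENNReal.ofReal (-Real.log (ν {a}).toReal)) ∂ν

/-- Law of the i.i.d. process with marginal `ν`. -/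
noncomputable def iid {A : Type} [MeasurableSpace A] (ν : Measure A) : Measure (ℤ → A) :=
  Measure.infinitePi (fun _ : ℤ => ν)

/-- `φ` is measurable, commutes with the shift almost surely, and `φ(Y)` has the law of the
stationary chain. -/
def IsFactor {A S : Type} [MeasurableSpace A] [MeasurableSpace S] (ν : Measure A)
    (π : S → ℝ) (P : Matrix S S ℝ) (φ : (ℤ → A) → (ℤ → S)) : Prop :=
  Measurable φ ∧ (∀ᵐ y ∂iid ν, ∀ n : ℤ, φ (fun i => y (i + 1)) n = φ y (n + 1)) ∧
    ∀ (k : ℤ) (n : ℕ) (w : Fin (n + 1) → S),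
      iid ν {y | ∀ i : Fin (n + 1), φ y (k + (i : ℕ)) = w i} = ENNReal.ofReal (wordProb π P w)

/-- `φ(y)_0` is determined by `y_{-r}, ..., y_r` (up to a null set of other inputs). -/
def Determined {A S : Type} [MeasurableSpace A] (ν : Measure A) (φ : (ℤ → A) → (ℤ → S))
    (r : ℕ) (y : ℤ → A) : Prop :=
  ∀ᵐ z ∂iid ν, (∀ i : ℤ, |i| ≤ r → z i = y i) → φ z 0 = φ y 0

/-- The coding window (infinite if no finite window determines the output). -/
noncomputable def window {A S : Type} [MeasurableSpace A] (ν : Measure A)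
    (φ : (ℤ → A) → (ℤ → S)) (y : ℤ → A) : ℕ∞ :=
  ⨅ (r : ℕ) (_ : Determined ν φ r y), (r : ℕ∞)

/-- Finitary, with a coding window having exponential tails. -/
def ExpWindow {A S : Type} [MeasurableSpace A] (ν : Measure A) (φ : (ℤ → A) → (ℤ → S)) : Prop :=
  (∀ᵐ y ∂iid ν, window ν φ y < ⊤) ∧ ∃ C c : ℝ, 0 < C ∧ 0 < c ∧ ∀ r : ℕ,
    iid ν {y | (r : ℕ∞) < window ν φ y} ≤ ENNReal.ofReal (C * Real.exp (-c * r))

/-! ### The golden mean chain -/

noncomputable def g : ℝ := Real.goldenRatio
noncomputable def v (i : Bool) : ℝ := if i then 1 else g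
noncomputable def gP : Matrix Bool Bool ℝ := fun i j => if i && j then 0 else v j / (g * v i)
noncomputable def gπ (i : Bool) : ℝ := v i ^ 2 / (1 + g ^ 2)

theorem g_sq : g ^ 2 = g + 1 := Real.goldenRatio_sq
theorem g_gt : 1 < g := Real.one_lt_goldenRatio
theorem g_lt : g < 2 := Real.goldenRatio_lt_two
theorem v_pos (i : Bool) : 0 < v i := by
  have := g_gt
  cases i <;> simp [v]; linarith
theorem v_ge (i : Bool) : 1 ≤ v i := by
  have := g_gt
  cases i <;> simp [v]; linarith
theorem v_le (i : Bool) : v i ≤ g := by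
  have := g_gt
  cases i <;> simp [v]; linarith

theorem gP_nonneg (i j : Bool) : 0 ≤ gP i j := by
  have := g_gt
  have := v_pos i
  have := v_pos j
  unfold gP
  split_ifs
  · exact le_rfl
  · positivity

theorem gP_row (i : Bool) : ∑ j, gP i j = 1 := by
  have h1 := g_gt
  have h2 := g_sq
  cases i
  · simp [gP, v]; field_simp; nlinarith
  · have : g ≠ 0 := by linarith
    simp [gP, v, this]

theorem chain : IsChain gπ gP := by
  have h1 := g_gt
  have h2 := g_sq
  refine ⟨fun i => by unfold gπ; positivity, ?_, gP_nonneg, gP_row, ?_⟩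
  · simp [gπ, v]; field_simp
  · intro j
    cases j
    · simp [gπ, gP, v]; field_simp; nlinarith
    · simp [gπ, gP, v]; field_simp

theorem gP2_pos (i j : Bool) : 0 < (gP ^ 2) i j := by
  have h1 := g_gt
  rw [pow_two, Matrix.mul_apply]
  cases i <;> cases j <;> simp [gP, v] <;> positivity

theorem gP3_pos (i j : Bool) : 0 < (gP ^ 3) i j := by
  have h1 := g_gt
  rw [pow_succ, Matrix.mul_apply, Fintype.sum_bool]
  have a := gP2_pos i false
  have b := gP2_pos i true
  have c := gP_nonneg true j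
  have d : 0 < gP false j := by
    have := v_pos j
    have := v_pos false
    have e : gP false j = v j / (g * v false) := by simp [gP]
    rw [e]
    positivity
  positivity

theorem pathW_cases {n : ℕ} (w : Fin (n + 1) → Bool) :
    pathW gP w = 0 ∨ pathW gP w = v (w (Fin.last n)) / (v (w 0) * g ^ n) := by
  by_cases h : ∃ i : Fin n, (w i.castSucc && w i.succ) = true
  · left
    obtain ⟨i, hi⟩ := h
    exact Finset.prod_eq_zero (Finset.mem_univ i) (by simp only [gP, hi, if_true])
  · right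
    push Not at h
    have e : pathW gP w = ∏ i : Fin n, (v (w i.succ) / (g * v (w i.castSucc))) := by
      refine Finset.prod_congr rfl fun i _ => ?_
      simp only [gP, h i]
      simp
    have e1 := Fin.prod_univ_succ (fun i : Fin (n + 1) => v (w i))
    have e2 := Fin.prod_univ_castSucc (fun i : Fin (n + 1) => v (w i))
    have p1 : 0 < ∏ i : Fin n, v (w i.castSucc) := Finset.prod_pos fun i _ => v_pos _
    have p0 := v_pos (w 0)
    have hg : 0 < g := by linarith [g_gt]
    rw [e, Finset.prod_div_distrib, Finset.prod_mul_distrib]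
    simp only [Finset.prod_const, Finset.card_univ, Fintype.card_fin]
    field_simp
    linarith

theorem word_cases {n : ℕ} (w : Fin (n + 1) → Bool) :
    wordProb gπ gP w = 0 ∨ (1 / 4 ≤ wordProb gπ gP w * g ^ n ∧ wordProb gπ gP w * g ^ n ≤ 1) := by
  rcases pathW_cases w with h | h
  · left; simp [wordProb, h]
  · right
    have hg : 0 < g := by linarith [g_gt]
    have p0 := v_pos (w 0)
    have e : wordProb gπ gP w * g ^ n = v (w 0) * v (w (Fin.last n)) / (1 + g ^ 2) := by
      rw [wordProb, h, gπ]; field_simp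
    have a1 := v_ge (w 0)
    have a2 := v_ge (w (Fin.last n))
    have b1 := v_le (w 0)
    have b2 := v_le (w (Fin.last n))
    have h2 := g_sq
    have h3 := g_lt
    rw [e]
    constructor
    · rw [le_div_iff₀ (by positivity)]; nlinarith
    · rw [div_le_one (by positivity)]; nlinarith

theorem sum_path (n : ℕ) : ∀ a : Bool → ℝ,
    ∑ w : Fin (n + 1) → Bool, a (w 0) * pathW gP w = ∑ s, a s := by
  induction n with
  | zero =>
    intro a
    rw [← (Equiv.funUnique (Fin 1) Bool).symm.sum_comp]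
    simp [pathW]
  | succ n ih =>
    intro a
    rw [← (Fin.consEquiv (fun _ : Fin (n + 2) => Bool)).sum_comp, Fintype.sum_prod_type]
    refine Finset.sum_congr rfl fun s _ => ?_
    have := ih (fun t => a s * gP s t)
    rw [← Finset.mul_sum, gP_row, mul_one] at this
    rw [← this]
    refine Finset.sum_congr rfl fun w _ => ?_
    simp only [Fin.consEquiv, Equiv.coe_fn_mk, Fin.cons_zero, pathW]
    rw [Fin.prod_univ_succ]
    simp only [Fin.castSucc_zero, Fin.cons_zero, Fin.cons_succ, Fin.castSucc_succ]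
    ring

theorem entropy : HasEntropy gπ gP (Real.log g) := by
  have hg : 0 < g := by linarith [g_gt]
  have hs : ∀ n : ℕ, ∑ w : Fin (n + 1) → Bool, wordProb gπ gP w = 1 := fun n =>
    (sum_path n gπ).trans chain.2.1
  have hb : ∀ (n : ℕ) (w : Fin (n + 1) → Bool),
      wordProb gπ gP w * (n * Real.log g) ≤ Real.negMulLog (wordProb gπ gP w) ∧
      Real.negMulLog (wordProb gπ gP w) ≤ wordProb gπ gP w * (n * Real.log g + Real.log 4) := by
    intro n w
    rcases word_cases w with h | ⟨h1, h2⟩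
    · simp [h]
    · set p := wordProb gπ gP w
      have hgn : 0 < g ^ n := by positivity
      have hp : 0 < p := by
        by_contra hc
        push Not at hc
        nlinarith
      have l1 : Real.log (p * g ^ n) ≤ 0 := Real.log_nonpos (by positivity) h2
      have l2 : Real.log (1 / 4) ≤ Real.log (p * g ^ n) := Real.log_le_log (by norm_num) h1
      rw [Real.log_mul hp.ne' hgn.ne', Real.log_pow] at l1 l2
      rw [one_div, Real.log_inv] at l2
      rw [Real.negMulLog]
      constructor <;> nlinarith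
  have lo : Tendsto (fun n : ℕ => Real.log g - Real.log g / ((n : ℝ) + 1)) atTop
      (𝓝 (Real.log g)) := by
    have := (tendsto_one_div_add_atTop_nhds_zero_nat (𝕜 := ℝ)).const_mul (Real.log g)
    simpa [div_eq_mul_inv] using this.const_sub (Real.log g)
  have hi : Tendsto (fun n : ℕ => Real.log g + Real.log 4 / ((n : ℝ) + 1)) atTop
      (𝓝 (Real.log g)) := by
    have := (tendsto_one_div_add_atTop_nhds_zero_nat (𝕜 := ℝ)).const_mul (Real.log 4)
    simpa [div_eq_mul_inv] using this.const_add (Real.log g)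
  have lg : 0 < Real.log g := Real.log_pos g_gt
  refine tendsto_of_tendsto_of_tendsto_of_le_of_le lo hi (fun n => ?_) (fun n => ?_)
  · have := Finset.sum_le_sum (fun w (_ : w ∈ Finset.univ) => (hb n w).1)
    rw [← Finset.sum_mul, hs] at this
    have hn : (0 : ℝ) < n + 1 := by positivity
    simp only
    rw [le_div_iff₀ hn]
    have e : (Real.log g - Real.log g / ((n : ℝ) + 1)) * (n + 1) = n * Real.log g := by
      field_simp; ring
    linarith
  · have := Finset.sum_le_sum (fun w (_ : w ∈ Finset.univ) => (hb n w).2)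
    rw [← Finset.sum_mul, hs] at this
    have hn : (0 : ℝ) < n + 1 := by positivity
    simp only
    rw [div_le_iff₀ hn]
    have e : (Real.log g + Real.log 4 / ((n : ℝ) + 1)) * (n + 1)
        = n * Real.log g + Real.log 4 + Real.log g := by
      field_simp; ring
    linarith

theorem expret : ExpReturn gP := by
  refine ⟨false, Real.exp 1, 1, Real.exp_pos 1, one_pos, fun n => ?_⟩
  rw [← Real.exp_add]
  rcases Nat.lt_or_ge n 2 with hn | hn
  · have h1 : (1 : ℝ) ≤ Real.exp (1 + -1 * n) := by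
      apply Real.one_le_exp
      have : (n : ℝ) ≤ 1 := by exact_mod_cast Nat.lt_succ_iff.1 hn
      linarith
    refine le_trans ?_ h1
    have hp : ∀ w : Fin (n + 1) → Bool, 0 ≤ pathW gP w := fun w =>
      Finset.prod_nonneg fun i _ => gP_nonneg _ _
    have := sum_path n (fun s => if s = false then 1 else 0)
    simp only [Fintype.sum_bool] at this
    rw [Finset.sum_filter]
    refine le_trans (Finset.sum_le_sum fun w _ => ?_) (this.le.trans (by simp))
    by_cases h : w 0 = false ∧ ∀ i : Fin n, w i.succ ≠ false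
    · rw [if_pos h, if_pos h.1, one_mul]
    · rw [if_neg h]
      have := hp w
      positivity
  · refine le_trans (le_of_eq ?_) (Real.exp_pos _).le
    refine Finset.sum_eq_zero fun w hw => ?_
    have h := (Finset.mem_filter.1 hw).2.2
    obtain ⟨m, rfl⟩ : ∃ m, n = m + 2 := ⟨n - 2, by omega⟩
    refine Finset.prod_eq_zero (Finset.mem_univ (1 : Fin (m + 2))) ?_
    have a := h 0
    have b := h 1
    have e : (1 : Fin (m + 2)).castSucc = (0 : Fin (m + 2)).succ := by
      ext; simp
    rw [e]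
    simp only [ne_eq, Bool.not_eq_false] at a b
    rw [a, b]
    simp [gP]

/-! ### The obstruction -/

section
variable {A : Type} [MeasurableSpace A] [MeasurableSingletonClass A] (ν : Measure A)
  [IsProbabilityMeasure ν]

instance : IsProbabilityMeasure (iid ν) := by unfold iid; infer_instance

/-- shift by `k` -/
def sh (k : ℤ) (y : ℤ → A) : ℤ → A := fun i => y (i + k)

omit [MeasurableSingletonClass A] in
theorem sh_mp (k : ℤ) : MeasurePreserving (sh k) (iid ν) (iid ν) := by
  refine ⟨by unfold sh; fun_prop, ?_⟩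
  exact Measure.map_infinitePi_infinitePi_of_inj (P := fun _ : ℤ => ν) (f := fun i : ℤ => i + k)
    (add_left_injective k)

omit [MeasurableSingletonClass A] in
theorem comm_all {φ : (ℤ → A) → (ℤ → Bool)}
    (h : ∀ᵐ y ∂iid ν, ∀ n : ℤ, φ (fun i => y (i + 1)) n = φ y (n + 1)) :
    ∀ᵐ y ∂iid ν, ∀ k : ℕ, ∀ n : ℤ, φ (sh k y) n = φ y (n + k) := by
  have h2 : ∀ᵐ y ∂iid ν, ∀ k : ℕ, ∀ n : ℤ,
      φ (fun i => sh k y (i + 1)) n = φ (sh k y) (n + 1) :=
    ae_all_iff.2 fun k => (sh_mp ν k).quasiMeasurePreserving.ae h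
  filter_upwards [h2] with y hy k
  induction k with
  | zero => intro n; simp only [Nat.cast_zero, add_zero]; congr 1; funext i; simp [sh]
  | succ k ih =>
    intro n
    have e : sh ((k + 1 : ℕ) : ℤ) y = fun i => sh k y (i + 1) := by
      funext i; simp only [sh]; congr 1; push_cast; ring
    rw [e, hy, ih]; congr 1; push_cast; ring

omit [MeasurableSingletonClass A] [IsProbabilityMeasure ν] in
theorem det_of_not_lt {φ : (ℤ → A) → (ℤ → Bool)} {r : ℕ} {y : ℤ → A}
    (h : ¬ (r : ℕ∞) < window ν φ y) : Determined ν φ r y := by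
  by_contra hc
  apply h
  have : ((r + 1 : ℕ) : ℕ∞) ≤ window ν φ y := by
    refine le_iInf₂ fun m hm => ?_
    by_contra hlt
    have hmr : m ≤ r := by
      have : ¬ (r + 1 ≤ m) := fun h' => hlt (by exact_mod_cast h')
      omega
    apply hc
    filter_upwards [hm] with z hz hzy
    exact hz fun i hi => hzy i (hi.trans (by exact_mod_cast hmr))
  exact lt_of_lt_of_le (by exact_mod_cast Nat.lt_succ_self r) this

/-- mass of an atom -/
noncomputable def pa (a : A) : ℝ := (ν {a}).toReal

theorem meas_sing : Measurable (fun a : A => ν {a}) := by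
  have hc : Set.Countable {t : A | 0 < ν {a : A | id a = t}} :=
    Measure.countable_meas_level_set_pos measurable_id
  refine (measurable_const (a := (0 : ℝ≥0∞))).measurable_of_countable_ne (hc.mono ?_)
  intro t ht
  have : {a : A | id a = t} = {t} := by ext; simp
  simp only [Set.mem_ofPred_eq, this]
  exact pos_iff_ne_zero.2 (fun h => ht h.symm)

theorem meas_pa : Measurable (pa ν) := (meas_sing ν).ennreal_toReal

omit [MeasurableSingletonClass A] in
theorem pa_le (a : A) : pa ν a ≤ 1 := by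
  unfold pa
  exact ENNReal.toReal_le_of_le_ofReal zero_le_one (by simpa using prob_le_one)

omit [MeasurableSingletonClass A] [IsProbabilityMeasure ν] in
theorem pa_nonneg (a : A) : 0 ≤ pa ν a := ENNReal.toReal_nonneg

/-- normalised probability of the block `y_0 ... y_{N-1}` -/
noncomputable def uN (N : ℕ) (y : ℤ → A) : ℝ := ∏ i ∈ Finset.range N, (g * pa ν (y i))

theorem cyl (N : ℕ) (y : ℤ → A) :
    iid ν {z | ∀ i ∈ Finset.range N, z i = y i} = ENNReal.ofReal (∏ i ∈ Finset.range N, pa ν (y i)) := by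
  classical
  have e : {z : ℤ → A | ∀ i ∈ Finset.range N, z i = y i}
      = Set.pi ((Finset.range N).image (fun i : ℕ => (i : ℤ)) : Finset ℤ) (fun i => {y i}) := by
    ext z; simp
  rw [e, iid, Measure.infinitePi_pi _ (fun i _ => measurableSet_singleton _),
    Finset.prod_image (fun a _ b _ h => by exact_mod_cast h),
    ENNReal.ofReal_prod_of_nonneg (fun i _ => pa_nonneg ν _)]
  refine Finset.prod_congr rfl fun i _ => ?_
  rw [pa, ENNReal.ofReal_toReal (measure_ne_top _ _)]

theorem good_bound {φ : (ℤ → A) → (ℤ → Bool)} (hF : IsFactor ν gπ gP φ) (N L : ℕ) (y : ℤ → A)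
    (hy : ∀ k : ℕ, ∀ n : ℤ, φ (sh k y) n = φ y (n + k))
    (hd : ∀ k : ℕ, L ≤ k → k + L < N → Determined ν φ (min k (N - 1 - k)) (sh k y)) :
    uN ν N y ≤ g ^ (2 * L + 1) := by
  have hg1 := g_gt
  have hg : 0 < g := by linarith
  have eu : uN ν N y = g ^ N * ∏ i ∈ Finset.range N, pa ν (y i) := by
    rw [uN, Finset.prod_mul_distrib]; simp
  have hp0 : 0 ≤ ∏ i ∈ Finset.range N, pa ν (y i) := Finset.prod_nonneg fun i _ => pa_nonneg ν _
  rcases Nat.lt_or_ge N (2 * L + 1) with hN | hN
  · have h1 : ∏ i ∈ Finset.range N, pa ν (y i) ≤ 1 :=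
      Finset.prod_le_one (fun i _ => pa_nonneg ν _) (fun i _ => pa_le ν _)
    have h2 : g ^ N ≤ g ^ (2 * L + 1) := pow_le_pow_right₀ hg1.le hN.le
    have h3 : 0 < g ^ N := by positivity
    rw [eu]; nlinarith
  · obtain ⟨n, rfl⟩ : ∃ n, N = n + (2 * L + 1) := ⟨N - (2 * L + 1), by omega⟩
    set w : Fin (n + 1) → Bool := fun i => φ y ((L : ℤ) + (i : ℕ)) with hw
    have h1 : ∀ᵐ z ∂iid ν, ∀ i : Fin (n + 1),
        (∀ j : ℤ, |j| ≤ (min (L + i) (n + (2 * L + 1) - 1 - (L + i)) : ℕ) →
          sh (L + i : ℕ) z j = sh (L + i : ℕ) y j) →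
        φ (sh (L + i : ℕ) z) 0 = φ (sh (L + i : ℕ) y) 0 :=
      ae_all_iff.2 fun i => (sh_mp ν _).quasiMeasurePreserving.ae
        (hd (L + i) (by omega) (by have := i.2; omega))
    have h2 : iid ν {z | ∀ i ∈ Finset.range (n + (2 * L + 1)), z i = y i}
        ≤ iid ν {z | ∀ i : Fin (n + 1), φ z ((L : ℤ) + (i : ℕ)) = w i} := by
      refine measure_mono_ae ?_
      filter_upwards [h1, comm_all ν hF.2.1] with z hz hc hzy i
      have := hz i (fun j hj => by
        have hi := i.2
        have hj' := abs_le.1 hj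
        have m1 : ((min (L + i) (n + (2 * L + 1) - 1 - (L + i)) : ℕ) : ℤ) ≤ (L + i : ℕ) := by
          exact_mod_cast min_le_left _ _
        have m2 : ((min (L + i) (n + (2 * L + 1) - 1 - (L + i)) : ℕ) : ℤ)
            ≤ (n + (2 * L + 1) - 1 - (L + i) : ℕ) := by
          exact_mod_cast min_le_right _ _
        obtain ⟨t, ht⟩ : ∃ t : ℕ, (t : ℤ) = j + (L + i : ℕ) :=
          ⟨(j + (L + i : ℕ)).toNat, Int.toNat_of_nonneg (by omega)⟩
        have := hzy t (Finset.mem_range.2 (by omega))
        simp only [sh]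
        rw [← ht]; exact this)
      rw [hc, hy] at this
      simpa [hw] using this
    rw [cyl, hF.2.2 L n w] at h2
    have hwn : 0 ≤ wordProb gπ gP w :=
      mul_nonneg (chain.1 _) (Finset.prod_nonneg fun i _ => gP_nonneg _ _)
    have h3 := (ENNReal.ofReal_le_ofReal_iff hwn).1 h2
    have h4 : wordProb gπ gP w * g ^ n ≤ 1 := by
      rcases word_cases w with h | h
      · simp [h]
      · exact h.2
    have h5 : 0 < g ^ n := by positivity
    have h6 : 0 < g ^ (2 * L + 1) := by positivity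
    rw [eu, pow_add]
    have h7 : (∏ i ∈ Finset.range (n + (2 * L + 1)), pa ν (y i)) * g ^ n ≤ 1 := by nlinarith
    nlinarith

theorem bad_bound {φ : (ℤ → A) → (ℤ → Bool)} (hF : IsFactor ν gπ gP φ) {C ρ : ℝ} (hC : 0 < C)
    (h0 : 0 < ρ) (h1 : ρ < 1)
    (hw : ∀ r : ℕ, iid ν {y | (r : ℕ∞) < window ν φ y} ≤ ENNReal.ofReal (C * ρ ^ r)) (N L : ℕ) :
    iid ν {y | g ^ (2 * L + 1) < uN ν N y} ≤ ENNReal.ofReal (2 * C / (1 - ρ) * ρ ^ L) := by
  have hsub : iid ν {y | g ^ (2 * L + 1) < uN ν N y} ≤ iid ν (⋃ j ∈ Finset.Ico L N,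
      (sh (j : ℕ) ⁻¹' {y | (j : ℕ∞) < window ν φ y} ∪
        sh (N - 1 - j : ℕ) ⁻¹' {y | (j : ℕ∞) < window ν φ y})) := by
    refine measure_mono_ae ?_
    filter_upwards [comm_all ν hF.2.1] with y hy hlt
    by_contra hc
    have hc' : ∀ j, L ≤ j → j < N → ¬ (j : ℕ∞) < window ν φ (sh (j : ℕ) y) ∧
        ¬ (j : ℕ∞) < window ν φ (sh (N - 1 - j : ℕ) y) := by
      intro j a b
      constructor
      · intro h
        exact hc (Set.mem_biUnion (Finset.mem_coe.2 (Finset.mem_Ico.2 ⟨a, b⟩)) (Or.inl h))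
      · intro h
        exact hc (Set.mem_biUnion (Finset.mem_coe.2 (Finset.mem_Ico.2 ⟨a, b⟩)) (Or.inr h))
    refine absurd (good_bound ν hF N L y hy fun k a b => ?_) (not_le.2 hlt)
    apply det_of_not_lt
    rcases le_total k (N - 1 - k) with h | h
    · rw [min_eq_left h]; exact (hc' k a (by omega)).1
    · rw [min_eq_right h]
      have := (hc' (N - 1 - k) (by omega) (by omega)).2
      rwa [show N - 1 - (N - 1 - k) = k by omega] at this
  refine hsub.trans ((measure_biUnion_finset_le _ _).trans ?_)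
  have hb : ∀ j ∈ Finset.Ico L N, iid ν (sh (j : ℕ) ⁻¹' {y | (j : ℕ∞) < window ν φ y} ∪
        sh (N - 1 - j : ℕ) ⁻¹' {y | (j : ℕ∞) < window ν φ y}) ≤ ENNReal.ofReal (2 * C * ρ ^ j) := by
    intro j _
    refine (measure_union_le _ _).trans ?_
    refine (add_le_add (((sh_mp ν _).measure_preimage_le _).trans (hw j))
      (((sh_mp ν _).measure_preimage_le _).trans (hw j))).trans ?_
    rw [← ENNReal.ofReal_add (by positivity) (by positivity)]
    exact ENNReal.ofReal_le_ofReal (le_of_eq (by ring))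
  refine (Finset.sum_le_sum hb).trans ?_
  rw [← ENNReal.ofReal_sum_of_nonneg (fun j _ => by positivity), ← Finset.mul_sum]
  apply ENNReal.ofReal_le_ofReal
  have := geom_sum_Ico_le_of_lt_one (m := L) (n := N) h0.le h1
  calc 2 * C * ∑ i ∈ Finset.Ico L N, ρ ^ i ≤ 2 * C * (ρ ^ L / (1 - ρ)) := by gcongr
    _ = _ := by ring

theorem meas_uN (N : ℕ) : Measurable (uN ν N) := by
  unfold uN
  refine Finset.measurable_prod _ fun i _ => ?_
  exact ((meas_pa ν).comp (measurable_pi_apply _)).const_mul g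

theorem moment_bound {D ρ θ : ℝ} (hD : 0 < D) (h0 : 0 < ρ) (hθ : 0 < θ)
    (h1 : (g ^ θ) ^ 2 * ρ < 1) (N : ℕ)
    (hw : ∀ L : ℕ, iid ν {y | g ^ (2 * L + 1) < uN ν N y} ≤ ENNReal.ofReal (D * ρ ^ L)) :
    ∫⁻ y, ENNReal.ofReal (uN ν N y ^ θ) ∂iid ν
      ≤ ENNReal.ofReal (g ^ θ + (g ^ θ) ^ 3 * D / (1 - (g ^ θ) ^ 2 * ρ)) := by
  have hg1 := g_gt
  have hg : 0 < g := by linarith
  set b := g ^ θ with hb
  have hb0 : 0 < b := Real.rpow_pos_of_pos hg _
  have hpt : ∀ y, ENNReal.ofReal (uN ν N y ^ θ) ≤ ENNReal.ofReal b + ∑ L ∈ Finset.range N,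
      Set.indicator {y | g ^ (2 * L + 1) < uN ν N y} (fun _ => ENNReal.ofReal (b ^ (2 * L + 3))) y := by
    intro y
    have hu0 : 0 ≤ uN ν N y := Finset.prod_nonneg fun i _ => mul_nonneg hg.le (pa_nonneg ν _)
    have hpow : ∀ m : ℕ, uN ν N y ≤ g ^ m → uN ν N y ^ θ ≤ b ^ m := by
      intro m hm
      refine (Real.rpow_le_rpow hu0 hm hθ.le).trans (le_of_eq ?_)
      rw [hb, ← Real.rpow_natCast, ← Real.rpow_natCast, ← Real.rpow_mul hg.le,
        ← Real.rpow_mul hg.le, mul_comm]
    have hN : uN ν N y ≤ g ^ (2 * N + 1) := by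
      have : uN ν N y ≤ ∏ i ∈ Finset.range N, g :=
        Finset.prod_le_prod (fun i _ => mul_nonneg hg.le (pa_nonneg ν _))
          (fun i _ => by have := pa_le ν (y i); nlinarith)
      simp only [Finset.prod_const, Finset.card_range] at this
      exact this.trans (pow_le_pow_right₀ hg1.le (by omega))
    have hex : ∃ L : ℕ, uN ν N y ≤ g ^ (2 * L + 1) := ⟨N, hN⟩
    classical
    have hs := Nat.find_spec hex
    have hle : Nat.find hex ≤ N := Nat.find_min' hex hN
    rcases Nat.eq_zero_or_pos (Nat.find hex) with hz | hz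
    · rw [hz] at hs
      have := hpow _ hs
      exact le_add_right (ENNReal.ofReal_le_ofReal (by simpa using this))
    · obtain ⟨L, hL⟩ : ∃ L, Nat.find hex = L + 1 := ⟨Nat.find hex - 1, by omega⟩
      have hm := Nat.find_min hex (m := L) (by omega)
      rw [hL] at hs
      refine le_add_left (le_trans ?_ (Finset.single_le_sum
        (f := fun L => Set.indicator {y | g ^ (2 * L + 1) < uN ν N y}
          (fun _ => ENNReal.ofReal (b ^ (2 * L + 3))) y) (fun _ _ => zero_le)
          (Finset.mem_range.2 (show L < N by omega))))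
      rw [Set.indicator_of_mem (show y ∈ {y | g ^ (2 * L + 1) < uN ν N y} from not_le.1 hm)]
      exact ENNReal.ofReal_le_ofReal (hpow _ hs)
  have hms : ∀ L : ℕ, MeasurableSet {y | g ^ (2 * L + 1) < uN ν N y} := fun L =>
    measurableSet_lt measurable_const (meas_uN ν N)
  refine (lintegral_mono hpt).trans ?_
  rw [lintegral_add_left measurable_const, lintegral_finsetSum _
    (fun L _ => measurable_const.indicator (hms L))]
  simp only [lintegral_const, measure_univ, mul_one]
  have hpos : 0 < 1 - b ^ 2 * ρ := by linarith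
  rw [ENNReal.ofReal_add hb0.le (by positivity)]
  gcongr
  have hb' : ∀ L ∈ Finset.range N, ∫⁻ y, Set.indicator {y | g ^ (2 * L + 1) < uN ν N y}
      (fun _ => ENNReal.ofReal (b ^ (2 * L + 3))) y ∂iid ν
        ≤ ENNReal.ofReal (b ^ 3 * D * (b ^ 2 * ρ) ^ L) := by
    intro L _
    rw [lintegral_indicator_const (hms L)]
    refine (mul_le_mul_right (hw L) _).trans ?_
    rw [← ENNReal.ofReal_mul (by positivity)]
    exact ENNReal.ofReal_le_ofReal (le_of_eq (by ring))
  refine (Finset.sum_le_sum hb').trans ?_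
  rw [← ENNReal.ofReal_sum_of_nonneg (fun j _ => by positivity), ← Finset.mul_sum]
  apply ENNReal.ofReal_le_ofReal
  have := geom_sum_Ico_le_of_lt_one (m := 0) (n := N) (x := b ^ 2 * ρ) (by positivity) h1
  rw [← Finset.range_eq_Ico] at this
  calc b ^ 3 * D * ∑ i ∈ Finset.range N, (b ^ 2 * ρ) ^ i
      ≤ b ^ 3 * D * ((b ^ 2 * ρ) ^ 0 / (1 - b ^ 2 * ρ)) := by gcongr
    _ = _ := by ring

theorem moment_eq {θ : ℝ} (N : ℕ) :
    ∫⁻ y, ENNReal.ofReal (uN ν N y ^ θ) ∂iid ν
      = (∫⁻ a, ENNReal.ofReal ((g * pa ν a) ^ θ) ∂ν) ^ N := by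
  have hg : 0 < g := by linarith [g_gt]
  have hm : Measurable (fun a => ENNReal.ofReal ((g * pa ν a) ^ θ)) :=
    (((meas_pa ν).const_mul g).pow_const θ).ennreal_ofReal
  have hi : iIndepFun (fun (i : ℤ) (y : ℤ → A) => ENNReal.ofReal ((g * pa ν (y i)) ^ θ)) (iid ν) :=
    iIndepFun_infinitePi (P := fun _ : ℤ => ν)
      (X := fun _ a => ENNReal.ofReal ((g * pa ν a) ^ θ)) (fun _ => hm)
  have hi' : iIndepFun (fun (i : ℕ) (y : ℤ → A) => ENNReal.ofReal ((g * pa ν (y i)) ^ θ))
      (iid ν) := hi.precomp (g := fun i : ℕ => (i : ℤ)) Nat.cast_injective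
  have e : ∀ y : ℤ → A, ENNReal.ofReal (uN ν N y ^ θ)
      = ∏ i ∈ Finset.range N, ENNReal.ofReal ((g * pa ν (y i)) ^ θ) := by
    intro y
    rw [uN, ← Real.finsetProd_rpow _ _ (fun i _ => mul_nonneg hg.le (pa_nonneg ν _)),
      ENNReal.ofReal_prod_of_nonneg
        (fun i _ => Real.rpow_nonneg (mul_nonneg hg.le (pa_nonneg ν _)) _)]
  simp_rw [e]
  rw [lintegral_prod_eq_prod_lintegral_of_indepFun _ _ hi'
    (fun i => hm.comp (measurable_pi_apply _))]
  have : ∀ i ∈ Finset.range N, ∫⁻ y, ENNReal.ofReal ((g * pa ν (y (i : ℤ))) ^ θ) ∂iid ν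
      = ∫⁻ a, ENNReal.ofReal ((g * pa ν a) ^ θ) ∂ν := fun i _ =>
    (measurePreserving_eval_infinitePi (fun _ : ℤ => ν) (i : ℤ)).lintegral_comp hm
  rw [Finset.prod_congr rfl this]
  simp

theorem jensen {θ : ℝ} (hθ : 0 < θ) (hH : shannon ν = ENNReal.ofReal (Real.log g)) :
    1 < ∫⁻ a, ENNReal.ofReal ((g * pa ν a) ^ θ) ∂ν := by
  have hg1 := g_gt
  have hg : 0 < g := by linarith
  by_contra hc
  push Not at hc
  have hmI : Measurable (fun a : A => if ν {a} = 0 then (⊤ : ℝ≥0∞)
      else ENNReal.ofReal (-Real.log (ν {a}).toReal)) :=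
    Measurable.ite (meas_sing ν (measurableSet_singleton 0)) measurable_const
      (meas_pa ν).log.neg.ennreal_ofReal
  have hae : ∀ᵐ a ∂ν, 0 < pa ν a := by
    have := ae_lt_top hmI (by
      have : shannon ν ≠ ⊤ := by rw [hH]; exact ENNReal.ofReal_ne_top
      exact this)
    filter_upwards [this] with a ha
    have : ν {a} ≠ 0 := fun h => by simp [h] at ha
    exact ENNReal.toReal_pos this (measure_ne_top _ _)
  have hG0 : ∀ a, 0 ≤ -Real.log (pa ν a) := fun a =>
    neg_nonneg.2 (Real.log_nonpos (pa_nonneg ν a) (pa_le ν a))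
  have hL : ∫⁻ a, ENNReal.ofReal (-Real.log (pa ν a)) ∂ν = ENNReal.ofReal (Real.log g) := by
    rw [← hH, shannon]
    refine lintegral_congr_ae ?_
    filter_upwards [hae] with a ha
    have : ν {a} ≠ 0 := fun h => by simp [pa, h] at ha
    rw [if_neg this]; rfl
  have hGm : Measurable (fun a => -Real.log (pa ν a)) := (meas_pa ν).log.neg
  have hGi : Integrable (fun a => -Real.log (pa ν a)) ν :=
    ⟨hGm.aestronglyMeasurable, (hasFiniteIntegral_iff_ofReal (ae_of_all _ hG0)).2
      (by rw [hL]; exact ENNReal.ofReal_lt_top)⟩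
  have hGv : ∫ a, -Real.log (pa ν a) ∂ν = Real.log g := by
    rw [integral_eq_lintegral_of_nonneg_ae (ae_of_all _ hG0) hGm.aestronglyMeasurable, hL,
      ENNReal.toReal_ofReal (Real.log_pos hg1).le]
  have hF0 : ∀ a, 0 ≤ (g * pa ν a) ^ θ := fun a =>
    Real.rpow_nonneg (mul_nonneg hg.le (pa_nonneg ν _)) _
  have hFm : Measurable (fun a => (g * pa ν a) ^ θ) := ((meas_pa ν).const_mul g).pow_const θ
  have hFi : Integrable (fun a => (g * pa ν a) ^ θ) ν :=
    ⟨hFm.aestronglyMeasurable, (hasFiniteIntegral_iff_ofReal (ae_of_all _ hF0)).2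
      (lt_of_le_of_lt hc ENNReal.one_lt_top)⟩
  have hFv : ∫ a, (g * pa ν a) ^ θ ∂ν ≤ 1 := by
    rw [integral_eq_lintegral_of_nonneg_ae (ae_of_all _ hF0) hFm.aestronglyMeasurable]
    exact ENNReal.toReal_le_of_le_ofReal zero_le_one (by simpa using hc)
  have hexp : ∀ a, 0 < pa ν a → (g * pa ν a) ^ θ
      = Real.exp (θ * (Real.log g - -Real.log (pa ν a))) := by
    intro a ha
    rw [Real.rpow_def_of_pos (by positivity), Real.log_mul hg.ne' ha.ne']
    congr 1; ring
  have hi2 : Integrable (fun a => 1 + θ * (Real.log g - -Real.log (pa ν a))) ν :=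
    (integrable_const _).add (((integrable_const _).sub hGi).const_mul θ)
  have hnn : 0 ≤ᵐ[ν] fun a => (g * pa ν a) ^ θ - (1 + θ * (Real.log g - -Real.log (pa ν a))) := by
    filter_upwards [hae] with a ha
    have := Real.add_one_le_exp (θ * (Real.log g - -Real.log (pa ν a)))
    simp only [Pi.zero_apply]
    rw [hexp a ha]; linarith
  have hint : ∫ a, ((g * pa ν a) ^ θ - (1 + θ * (Real.log g - -Real.log (pa ν a)))) ∂ν = 0 := by
    refine le_antisymm ?_ (integral_nonneg_of_ae hnn)
    have hi3 : Integrable (fun a => θ * (Real.log g - -Real.log (pa ν a))) ν :=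
      ((integrable_const _).sub hGi).const_mul θ
    rw [integral_sub hFi hi2, integral_add (integrable_const _) hi3, integral_const_mul,
      integral_sub (integrable_const _) hGi, hGv]
    simp only [integral_const, probReal_univ, smul_eq_mul, one_mul]
    linarith
  have hz := (integral_eq_zero_iff_of_nonneg_ae hnn (hFi.sub hi2)).1 hint
  have hone : ∀ᵐ a ∂ν, g * pa ν a = 1 := by
    filter_upwards [hae, hz] with a ha hza
    simp only [Pi.zero_apply] at hza
    rw [hexp a ha] at hza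
    by_contra hne
    have h1 : θ * (Real.log g - -Real.log (pa ν a)) ≠ 0 := by
      refine mul_ne_zero hθ.ne' fun h => hne ?_
      have : Real.log (g * pa ν a) = 0 := by rw [Real.log_mul hg.ne' ha.ne']; linarith
      exact Real.eq_one_of_pos_of_log_eq_zero (by positivity) this
    have := Real.add_one_lt_exp h1
    linarith
  obtain ⟨a0, h0⟩ := hone.exists
  have hc0 : ν ({a0}ᶜ) ≠ 0 := by
    intro h
    have : ν {a0} = 1 := by
      rwa [prob_compl_eq_zero_iff (measurableSet_singleton _)] at h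
    simp only [pa, this, ENNReal.toReal_one] at h0
    linarith
  obtain ⟨a1, h1, h1'⟩ := Measure.exists_mem_of_measure_ne_zero_of_ae hc0 (ae_restrict_of_ae hone)
  have hsum : pa ν a0 + pa ν a1 ≤ 1 := by
    have hd : Disjoint ({a0} : Set A) {a1} := by
      rw [Set.disjoint_singleton]; exact fun h => h1 (by simp [h])
    have := measure_union (μ := ν) hd (measurableSet_singleton a1)
    have h2 : (ν ({a0} ∪ {a1})).toReal ≤ 1 :=
      ENNReal.toReal_le_of_le_ofReal zero_le_one (by simpa using prob_le_one)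
    rwa [this, ENNReal.toReal_add (measure_ne_top _ _) (measure_ne_top _ _)] at h2
  have := g_lt
  nlinarith

theorem no_factor (hH : shannon ν = ENNReal.ofReal (Real.log g)) :
    ¬ ∃ φ : (ℤ → A) → (ℤ → Bool), IsFactor ν gπ gP φ ∧ ExpWindow ν φ := by
  rintro ⟨φ, hF, -, C, c, hC, hc, hw⟩
  have hg1 := g_gt
  have hg : 0 < g := by linarith
  have lg : 0 < Real.log g := Real.log_pos hg1
  have h0 : 0 < Real.exp (-c) := Real.exp_pos _
  have h1 : Real.exp (-c) < 1 := Real.exp_lt_one_iff.2 (by linarith)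
  have hw' : ∀ r : ℕ, iid ν {y | (r : ℕ∞) < window ν φ y}
      ≤ ENNReal.ofReal (C * Real.exp (-c) ^ r) := by
    intro r
    rw [← Real.exp_nat_mul, mul_comm (r : ℝ)]
    exact hw r
  have hθ : 0 < c / (4 * Real.log g) := by positivity
  have h2 : (g ^ (c / (4 * Real.log g))) ^ 2 * Real.exp (-c) < 1 := by
    rw [Real.rpow_def_of_pos hg, ← Real.exp_nat_mul, ← Real.exp_add]
    apply Real.exp_lt_one_iff.2
    have : Real.log g * (c / (4 * Real.log g)) = c / 4 := by field_simp
    rw [this]; push_cast; linarith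
  have hD : 0 < 2 * C / (1 - Real.exp (-c)) := by
    have : 0 < 1 - Real.exp (-c) := by linarith
    positivity
  have hb := fun N => moment_bound ν hD h0 hθ h2 N (bad_bound ν hF hC h0 h1 hw' N)
  simp_rw [moment_eq] at hb
  have ht := ENNReal.tendsto_pow_atTop_nhds_top_iff.2 (jensen ν hθ hH)
  obtain ⟨N, hN⟩ := (ht.eventually (lt_mem_nhds ENNReal.ofReal_lt_top)).exists
  exact absurd (hb N) (not_le.2 hN)

end

theorem result : ∃ (π : Bool → ℝ) (P : Matrix Bool Bool ℝ) (h : ℝ),
    IsChain π P ∧ Irred P ∧ Aper P ∧ ExpReturn P ∧ 0 < h ∧ HasEntropy π P h ∧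
    ∀ (A : Type) [MeasurableSpace A] [StandardBorelSpace A] (ν : Measure A)
      [IsProbabilityMeasure ν], shannon ν = ENNReal.ofReal h →
      ¬ ∃ φ : (ℤ → A) → (ℤ → Bool), IsFactor ν π P φ ∧ ExpWindow ν φ := by
  refine ⟨gπ, gP, Real.log g, chain, fun i j => ⟨2, gP2_pos i j⟩, ?_, expret,
    Real.log_pos g_gt, entropy, fun A _ _ ν _ hH => no_factor ν hH⟩
  intro i d hd
  have h2 := hd 2 (by norm_num) (gP2_pos i i)
  have h3 := hd 3 (by norm_num) (gP3_pos i i)
  have := Nat.dvd_sub h3 h2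
  simpa using this

end Pool.Agent.Results.MP_207c40_pr.GoldenNo
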